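import Pool.Agent.U514.TG.Stm2

set_option autoImplicit false

/-! Project TG, package PLOW: a finite planar graph has no minor `K₅`. -/

namespace Pool.Agent.U2.TG.PLOW

open Finset
open Pool.Agent.U514.MU Pool.Agent.U514.TG
open Pool.Agent.Helper770.Crossing Pool.Agent.Helper770.Sep Pool.Agent.Helper770.Planar

section

variable {V : Type} {G : SimpleGraph V}

theorem planar_adj (D : Drawing G) (N : Finset ℂ) (hN : ∀ z, z ∈ N ↔ ∃ v, D.pos v = z) {u v : V}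
    (h : G.Adj u v) (hu : D.pos u ∈ N) (hv : D.pos v ∈ N) :
    (planar D N).Adj ⟨D.pos u, hu⟩ ⟨D.pos v, hv⟩ := by
  have he : s(u, v) ∈ G.edgeSet := h
  refine ⟨?_, s(u, v), 0, 1, ⟨he, le_rfl, one_pos, le_rfl, ?_⟩, ?_⟩
  · intro h1
    have h2 : D.pos u = D.pos v := congrArg Subtype.val h1
    exact h.ne (D.pos_injective h2)
  · intro r h0 h1 hr
    obtain ⟨w, hw⟩ := (hN _).1 hr
    exact D.arc_avoids _ he r ⟨h0, h1⟩ w hw.symm
  · exact D.arc_ends u v h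

theorem walk_prop {A : Set V} (P : V → Prop) (hP : ∀ x ∈ A, ∀ y ∈ A, G.Adj x y → P x → P y) :
    ∀ {a b : V} (p : G.Walk a b), (∀ y ∈ p.support, y ∈ A) → P a → P b := by
  intro a b p
  induction p with
  | nil => exact fun _ h => h
  | cons h p ih =>
    intro hs ha
    refine ih (fun y hy => hs y (by simp [hy])) ?_
    refine hP _ (hs _ (by simp)) _ (hs _ (by simp)) h ha

end

theorem t_PLOW : S_PLOW := by
  classical
  intro V _ G hG d hm
  obtain ⟨D, hD⟩ := hG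
  obtain ⟨A, hdis, hcon, hadj⟩ := hm
  obtain ⟨N, hN⟩ : ∃ N : Finset ℂ, ∀ z, z ∈ N ↔ ∃ v, D.pos v = z :=
    ⟨univ.image D.pos, fun z => by simp⟩
  have hNK : NoK5 (planar D N) := noK5 D N (by
    intro x hx
    rw [hD] at hx
    exact absurd hx (Set.notMem_empty x))
  have hpos : ∀ v, D.pos v ∈ N := fun v => (hN _).2 ⟨v, rfl⟩
  obtain ⟨C, hC⟩ : ∃ C : Fin 5 → Finset N, ∀ i z, z ∈ C i ↔ ∃ v ∈ A i, D.pos v = z :=
    ⟨fun i => univ.filter (fun z => ∃ v ∈ A i, D.pos v = z), fun i z => by simp⟩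
  have hCA : ∀ i v, v ∈ A i → (⟨D.pos v, hpos v⟩ : N) ∈ C i := fun i v hv => (hC i _).2 ⟨v, hv, rfl⟩
  refine hNK C ?_ ?_ ?_
  · intro i
    obtain ⟨c, hc, hcx⟩ := hcon i
    refine conn_of_induct ⟨_, hCA i c hc⟩ ?_
    rintro p ⟨x, hx, hpx⟩ hs y hy
    obtain ⟨v, hv, hvx⟩ := (hC i x).1 hx
    obtain ⟨w, hw, hwy⟩ := (hC i y).1 hy
    have hP : ∀ x ∈ A i, ∀ y ∈ A i, G.Adj x y → p ⟨D.pos x, hpos x⟩ → p ⟨D.pos y, hpos y⟩ :=
      fun x hx y hy hxy => hs _ (hCA i x hx) _ (hCA i y hy)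
        (planar_adj D N hN hxy (hpos x) (hpos y))
    obtain ⟨q1, -, hq1⟩ := hcx v hv
    obtain ⟨q2, -, hq2⟩ := hcx w hw
    have e1 : (⟨D.pos v, hpos v⟩ : N) = x := Subtype.ext hvx
    have e2 : (⟨D.pos w, hpos w⟩ : N) = y := Subtype.ext hwy
    have s1 : p ⟨D.pos c, hpos c⟩ :=
      walk_prop (A := A i) (fun v => p ⟨D.pos v, hpos v⟩) hP q1.reverse
        (fun y hy => hq1 y (by simpa using hy)) (e1 ▸ hpx)
    have s2 := walk_prop (A := A i) (fun v => p ⟨D.pos v, hpos v⟩) hP q2 hq2 s1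
    rw [← e2]
    exact s2
  · intro i j hij
    rw [disjoint_left]
    intro z hz hz'
    obtain ⟨v, hv, hvz⟩ := (hC i z).1 hz
    obtain ⟨w, hw, hwz⟩ := (hC j z).1 hz'
    have : v = w := D.pos_injective (hvz.trans hwz.symm)
    subst this
    exact Set.disjoint_left.1 (hdis i j hij) hv hw
  · intro i j hij
    obtain ⟨x, hx, y, hy, hxy⟩ := hadj i j (by simpa using hij)
    exact ⟨_, hCA i x hx, _, hCA j y hy, planar_adj D N hN hxy (hpos x) (hpos y)⟩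

end Pool.Agent.U2.TG.PLOW
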